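import Mathlib
import Pool.Agent.H925R3.RR.Stubs

/-! Formulas for the `x`-coordinates (modules FSP, FDB, FEQ of the project RR). -/

set_option autoImplicit false

namespace Pool.Agent.H678RR

open Pool.Agent.H925R3.DC Pool.Agent.H925R3.RR WeierstrassCurve.Affine

section

variable {K : Type} [Field K] {a b : K}

theorem eqn {x y : K} (h : (crv K a b).Nonsingular x y) : y ^ 2 = x ^ 3 + a * x + b := by
  have := (WeierstrassCurve.Affine.equation_iff x y).1 h.1
  simp only [crv] at this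
  linear_combination this

theorem negY_eq (x y : K) : (crv K a b).negY x y = - y := by
  simp [WeierstrassCurve.Affine.negY, crv]

theorem addX_eq (x₁ x₂ l : K) : (crv K a b).addX x₁ x₂ l = l ^ 2 - x₁ - x₂ := by
  simp [WeierstrassCurve.Affine.addX, crv]

end

theorem fsp : FSP := by
  intro K _ _ a b P Q hP hQ hx
  rcases P with _ | ⟨x₁, y₁, h₁⟩
  · exact absurd rfl hP
  rcases Q with _ | ⟨x₂, y₂, h₂⟩
  · exact absurd rfl hQ
  have hx' : x₁ ≠ x₂ := hx
  have hd : x₁ - x₂ ≠ 0 := sub_ne_zero.2 hx'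
  have e₁ := eqn h₁
  have e₂ := eqn h₂
  have hneg := Point.neg_some h₂
  rw [sub_eq_add_neg, hneg, Point.add_of_X_ne hx', Point.add_of_X_ne hx']
  refine ⟨Point.some_ne_zero _, Point.some_ne_zero _, ?_, ?_⟩
  · simp only [xc, addX_eq, negY_eq, slope_of_X_ne hx', div_pow]
    field_simp
    linear_combination 2 * e₁ + 2 * e₂
  · simp only [xc, addX_eq, negY_eq, slope_of_X_ne hx', div_pow]
    field_simp
    linear_combination (y₁ ^ 2 - y₂ ^ 2 + (x₁ ^ 3 + a * x₁ + b) - (x₂ ^ 3 + a * x₂ + b) -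
      2 * (x₁ + x₂) * (x₁ - x₂) ^ 2) * e₁ + (- (y₁ ^ 2 - y₂ ^ 2 + (x₁ ^ 3 + a * x₁ + b) -
      (x₂ ^ 3 + a * x₂ + b)) - 2 * (x₁ + x₂) * (x₁ - x₂) ^ 2) * e₂

theorem fdb : FDB := by
  intro K _ _ a b P hP hPP
  rcases P with _ | ⟨x, y, h⟩
  · exact absurd rfl hP
  have e := eqn h
  have hy : y ≠ (crv K a b).negY x y := fun hy => hPP (Point.add_self_of_Y_eq hy)
  have hy2 : y ≠ - y := by rwa [negY_eq] at hy
  have hy3 : 2 * y ≠ 0 := by
    intro h0; apply hy2; linear_combination h0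
  have hy0 : y ≠ 0 := by rintro rfl; simp at hy3
  have h2 : (2 : K) ≠ 0 := by intro h0; apply hy3; rw [h0]; ring
  refine ⟨?_, ?_⟩
  · show x ^ 3 + a * x + b ≠ 0
    rw [← e]; exact pow_ne_zero 2 hy0
  · rw [Point.add_self_of_Y_ne hy]
    have hs : (crv K a b).slope x x y y = (3 * x ^ 2 + a) / (2 * y) := by
      rw [slope_of_Y_ne rfl hy, negY_eq]
      simp only [crv]
      congr 1 <;> ring
    simp only [xc, addX_eq, hs]
    rw [← e]
    field_simp
    linear_combination (-32 * x) * e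

theorem feq : FEQ := by
  intro K _ _ a b P Q
  refine ⟨?_, ?_, ?_⟩
  · rcases P with _ | ⟨x, y, h⟩
    · rfl
    · rw [Point.neg_some]; rfl
  · intro hP hQ hx
    rcases P with _ | ⟨x₁, y₁, h₁⟩
    · exact absurd rfl hP
    rcases Q with _ | ⟨x₂, y₂, h₂⟩
    · exact absurd rfl hQ
    exact Point.X_eq_iff.1 hx
  · intro hP
    rcases P with _ | ⟨x, y, h⟩
    · exact absurd rfl hP
    exact ⟨y, eqn h⟩

end Pool.Agent.H678RR
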